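import Pool.Agent.H69.As.Final

/-!
# Asynchronous automatic structures can be recognised algorithmically

The input `d : AData` consists of the number `n` of letters, a deterministic word acceptor `W`
and deterministic two-tape automata `M_ε, M_1, …, M_n` (`mach d 0, …, mach d n`). `IsStr d f`
says that they form an asynchronous automatic structure for the group `G` with the monoid
generators `f`. A presentation is given by its list `P` of relators; `GP n P` is the presented
group with the generators `gen n P`, and `Triv n P w` says that the word `w` is trivial in it.
-/

set_option autoImplicit false

namespace Pool.Agent.Results.MP_d956e6_al.AsyncAxiomCheck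

open Pool.Agent.H69.As

/-- (1) It is decidable whether the automata form an asynchronous automatic structure for some
group on the alphabet. (2) From the automata one computes a finite list `l d` of words, which
presents the group of every structure given by `d`. (3) For a presented group the question is
equivalent to a decidable condition and the triviality of the words `l d` in the group. (4) So it
is decidable for every class of presentations with uniformly solvable word problem. (5) For the
automata `dtriv n` (`L(W) = {ε}`) it is the question whether the presented group is trivial. -/
theorem result :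
    (ComputablePred fun d : AData =>
      ∃ (G : Type) (_ : Group G) (f : Fin d.1 → G), IsStr d f) ∧
    ∃ l : AData → List SW, Computable l ∧
      (∀ (d : AData) (G : Type) [Group G] (f : Fin d.1 → G), IsStr d f →
        ∃ θ : GP d.1 (l d) ≃* G, ∀ i, θ (gen d.1 (l d) i) = f i) ∧
      (∃ Q : AData × List SW → Prop, ComputablePred Q ∧
        ∀ (d : AData) (P : List SW), IsStr d (gen d.1 P) ↔
          Q (d, P) ∧ ∀ w ∈ l d, Triv d.1 P w) ∧
      (∀ (S : Set (ℕ × List SW)) (wp : (ℕ × List SW) × SW → Bool), Computable wp →
        (∀ p ∈ S, ∀ w, wp (p, w) = true ↔ Triv p.1 p.2 w) →
        ∃ dec : AData × List SW → Bool, Computable dec ∧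
          ∀ (d : AData) (P : List SW), (d.1, P) ∈ S →
            (dec (d, P) = true ↔ IsStr d (gen d.1 P))) ∧
      (Computable dtriv ∧
        ∀ (n : ℕ) (P : List SW), IsStr (dtriv n) (gen n P) ↔ Subsingleton (GP n P)) :=
  ⟨str_decidable, lst, lst_comp.computable, fun _ _ _ _ h => str_presents h,
    ⟨_, QP_decidable, str_pres⟩, str_of_wp, dtriv_comp, fun n P => dtriv_str (gen n P)⟩

end Pool.Agent.Results.MP_d956e6_al.AsyncAxiomCheck
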